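import Pool.Agent.Helper381.Riem3
import Pool.Agent.Helper381.Parity

namespace Pool.Agent.Results.MP_cec940_gt.ParityTwoNumber

open Pool.Agent.Helper381 Bundle Manifold
open scoped ContDiff

/-- Let `M` be a compact connected Riemannian symmetric space. Its rational cohomology is finite
dimensional, its two-number is a finite number `k`, and the Euler characteristic of `M` is
congruent to `k` modulo `2`. -/
theorem result {E : Type*} [NormedAddCommGroup E] [NormedSpace ℝ E] [FiniteDimensional ℝ E]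
    {M : Type*} [MetricSpace M] [CompactSpace M] [ConnectedSpace M]
    [ChartedSpace E M] [IsManifold 𝓘(ℝ, E) ∞ M]
    [RiemannianBundle (fun x : M => TangentSpace 𝓘(ℝ, E) x)]
    [IsContMDiffRiemannianBundle 𝓘(ℝ, E) ∞ E (fun x : M => TangentSpace 𝓘(ℝ, E) x)]
    [IsRiemannianManifold 𝓘(ℝ, E) M] (hsym : IsSymmetric M) :
    ((∀ n, Module.Finite ℚ (SingularCohomology ℚ M n)) ∧
      ∃ N, ∀ n, N ≤ n → Module.finrank ℚ (SingularCohomology ℚ M n) = 0) ∧
    ∃ k : ℕ, twoNumber M = k ∧ eulerChar M ≡ k [ZMOD 2] := by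
  obtain ⟨R, G⟩ := riemannian_geo (E := E) (M := M)
  exact ⟨G.betti_finite' ℚ, G.parity hsym⟩

end Pool.Agent.Results.MP_cec940_gt.ParityTwoNumber
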